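import Pool.Agent.R403.RS.Frob

/-!
# Clifford theory for `E ⋊ H` with `E` abelian
-/

open scoped BigOperators
open Representation

noncomputable section

namespace Pool.Agent.R403.RS

variable (E H : Type) [AddCommGroup E] [Group H] [DistribMulAction H E]

/-- The action of `H` on the multiplicative copy of `E` attached to an action of `H` on the
additive group `E`. -/
def act : H →* MulAut (Multiplicative E) where
  toFun h := AddEquiv.toMultiplicative (DistribMulAction.toAddEquiv E h)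
  map_one' := by
    ext x
    change Multiplicative.ofAdd ((1 : H) • x.toAdd) = x
    rw [one_smul]; rfl
  map_mul' a b := by
    ext x
    change Multiplicative.ofAdd ((a * b) • x.toAdd) = Multiplicative.ofAdd (a • (b • x.toAdd))
    rw [mul_smul]

/-- The semidirect product `E ⋊ H`. -/
abbrev GG : Type := Multiplicative E ⋊[act E H] H

variable {E H}

/-- The element `e` of `E ⋊ H`. -/
def inE (e : E) : GG E H := SemidirectProduct.inl (Multiplicative.ofAdd e)

/-- The element `h` of `E ⋊ H`. -/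
def inH (h : H) : GG E H := SemidirectProduct.inr h

lemma inE_add (a b : E) : (inE (a + b) : GG E H) = inE a * inE b := by
  unfold inE; rw [ofAdd_add, map_mul]

lemma inE_zero : (inE (0 : E) : GG E H) = 1 := by
  unfold inE; rw [ofAdd_zero, map_one]

lemma inH_mul (a b : H) : (inH (a * b) : GG E H) = inH a * inH b := by
  unfold inH; rw [map_mul]

lemma inH_one : (inH (1 : H) : GG E H) = 1 := by
  unfold inH; rw [map_one]

lemma inH_inE (h : H) (e : E) : (inH h : GG E H) * inE e = inE (h • e) * inH h := by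
  have h1 := SemidirectProduct.inl_aut (φ := act E H) h (Multiplicative.ofAdd e)
  have h2 : (act E H h) (Multiplicative.ofAdd e) = Multiplicative.ofAdd (h • e) := rfl
  rw [h2] at h1
  unfold inE inH
  rw [h1, mul_assoc, ← map_mul, inv_mul_cancel, map_one, mul_one]

lemma exists_eq (g : GG E H) : ∃ (e : E) (h : H), g = inE e * inH h :=
  ⟨g.left.toAdd, g.right, (SemidirectProduct.inl_left_mul_inr_right g).symm⟩

/-- The contragredient action of `H` on the additive characters of `E`. -/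
def dact (h : H) (ψ : AddChar E ℂ) : AddChar E ℂ where
  toFun e := ψ (h⁻¹ • e)
  map_zero_eq_one' := by simp
  map_add_eq_mul' a b := by rw [smul_add, AddChar.map_add_eq_mul]

@[simp] lemma dact_apply (h : H) (ψ : AddChar E ℂ) (e : E) : dact h ψ e = ψ (h⁻¹ • e) := rfl

/-- The contragredient action of `H` on the additive characters of `E`. -/
@[reducible] def dualAction : MulAction H (AddChar E ℂ) where
  smul := dact
  one_smul ψ := by
    ext e
    change ψ ((1 : H)⁻¹ • e) = ψ e
    simp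
  mul_smul a b ψ := by
    ext e
    change ψ ((a * b)⁻¹ • e) = ψ (b⁻¹ • (a⁻¹ • e))
    rw [mul_inv_rev, mul_smul]

attribute [local instance] dualAction

lemma smul_def' (h : H) (ψ : AddChar E ℂ) (e : E) : (h • ψ) e = ψ (h⁻¹ • e) := rfl

/-- The stabilizer of `ψ`. -/
def stab (ψ : AddChar E ℂ) : Subgroup H := MulAction.stabilizer H ψ

lemma mem_stab {ψ : AddChar E ℂ} {h : H} : h ∈ stab ψ ↔ ∀ e : E, ψ (h • e) = ψ e := by
  unfold stab
  rw [MulAction.mem_stabilizer_iff]
  constructor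
  · intro h1 e
    have h2 := congrArg (fun χ : AddChar E ℂ => χ (h • e)) h1
    simp only [smul_def'] at h2
    rw [inv_smul_smul] at h2
    exact h2.symm
  · intro h1
    ext e
    rw [smul_def', ← h1 (h⁻¹ • e), smul_inv_smul]

section weights

variable [Fintype E] {V : Type} [AddCommGroup V] [Module ℂ V] (ρ : Representation ℂ (GG E H) V)

/-- The projection to the weight space of `ψ`. -/
def P (ψ : AddChar E ℂ) : Module.End ℂ V :=
  (Fintype.card E : ℂ)⁻¹ • ∑ e : E, ψ (-e) • ρ (inE e)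

omit [DistribMulAction H E] [Group H] in
lemma cardE_ne : (Fintype.card E : ℂ) ≠ 0 := by
  have h : Fintype.card E ≠ 0 := Fintype.card_ne_zero
  exact_mod_cast h

lemma rho_P (ψ : AddChar E ℂ) (e : E) : ρ (inE e) * P ρ ψ = ψ e • P ρ ψ := by
  unfold P
  rw [mul_smul_comm, smul_comm (ψ e) ((Fintype.card E : ℂ)⁻¹), Finset.mul_sum,
    Finset.smul_sum (r := ψ e)]
  refine congrArg (fun S : Module.End ℂ V => (Fintype.card E : ℂ)⁻¹ • S) ?_
  refine Fintype.sum_equiv (Equiv.addLeft e) _ _ ?_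
  intro x
  have hx : e + -(e + x) = -x := by rw [neg_add, add_neg_cancel_left]
  change ρ (inE e) * ψ (-x) • ρ (inE x) = ψ e • ψ (-(e + x)) • ρ (inE (e + x))
  rw [mul_smul_comm, ← map_mul, ← inE_add, smul_smul, ← AddChar.map_add_eq_mul, hx]

lemma P_rho (ψ : AddChar E ℂ) (e : E) : P ρ ψ * ρ (inE e) = ψ e • P ρ ψ := by
  rw [← rho_P]
  unfold P
  rw [mul_smul_comm, smul_mul_assoc, Finset.mul_sum, Finset.sum_mul]
  congr 1
  refine Finset.sum_congr rfl fun x _ => ?_
  rw [mul_smul_comm, smul_mul_assoc, ← map_mul, ← map_mul, ← inE_add, ← inE_add, add_comm]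

lemma P_idem (ψ : AddChar E ℂ) : P ρ ψ * P ρ ψ = P ρ ψ := by
  have h1 : P ρ ψ * P ρ ψ = (Fintype.card E : ℂ)⁻¹ • ∑ e : E, ψ (-e) • (ρ (inE e) * P ρ ψ) := by
    conv_lhs => rw [P]
    rw [smul_mul_assoc, Finset.sum_mul]
    congr 1
  rw [h1]
  have h2 : ∀ e : E, ψ (-e) • (ρ (inE e) * P ρ ψ) = P ρ ψ := by
    intro e
    rw [rho_P, smul_smul, ← AddChar.map_add_eq_mul, neg_add_cancel, AddChar.map_zero_eq_one,
      one_smul]
  simp only [h2]
  rw [Finset.sum_const, Finset.card_univ, ← Nat.cast_smul_eq_nsmul ℂ, smul_smul,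
    inv_mul_cancel₀ cardE_ne, one_smul]

lemma P_orth {ψ ψ' : AddChar E ℂ} (h : ψ ≠ ψ') : P ρ ψ * P ρ ψ' = 0 := by
  obtain ⟨e, he⟩ : ∃ e, ψ e ≠ ψ' e := by
    by_contra hc
    push Not at hc
    exact h (DFunLike.ext _ _ hc)
  have h1 : ψ e • (P ρ ψ * P ρ ψ') = ψ' e • (P ρ ψ * P ρ ψ') := by
    rw [← smul_mul_assoc, ← P_rho, mul_assoc, rho_P, mul_smul_comm]
  rw [← sub_eq_zero, ← sub_smul] at h1
  exact (smul_eq_zero.mp h1).resolve_left (sub_ne_zero.mpr he)

lemma sum_P : ∑ ψ : AddChar E ℂ, P ρ ψ = 1 := by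
  classical
  unfold P
  rw [← Finset.smul_sum, Finset.sum_comm]
  have h1 : ∀ e : E, ∑ ψ : AddChar E ℂ, ψ (-e) • ρ (inE e)
      = if e = 0 then (Fintype.card E : ℂ) • (1 : Module.End ℂ V) else 0 := by
    intro e
    rw [← Finset.sum_smul, AddChar.sum_apply_eq_ite]
    by_cases he : e = 0
    · subst he
      simp [inE_zero]
    · simp [he]
  simp only [h1]
  rw [Finset.sum_ite_eq' Finset.univ (0 : E)]
  simp [smul_smul]

lemma rhoH_P (ψ : AddChar E ℂ) (h : H) : ρ (inH h) * P ρ ψ = P ρ (h • ψ) * ρ (inH h) := by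
  unfold P
  rw [mul_smul_comm, smul_mul_assoc, Finset.mul_sum, Finset.sum_mul]
  congr 1
  refine Fintype.sum_equiv (MulAction.toPerm h) _ _ ?_
  intro x
  rw [MulAction.toPerm_apply, mul_smul_comm, smul_mul_assoc, ← map_mul, ← map_mul, inH_inE,
    smul_def', smul_neg, inv_smul_smul]

end weights

section irr

variable [Fintype E] {V : Type} [AddCommGroup V] [Module ℂ V] [FiniteDimensional ℂ V]
  (ρ : Representation ℂ (GG E H) V)

open Classical in
/-- the orbit of `ψ` -/
def orb (ψ : AddChar E ℂ) : Finset (AddChar E ℂ) :=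
  Finset.univ.filter fun χ => χ ∈ MulAction.orbit H ψ

open Classical in
lemma sum_orb (hirr : ρ.IsIrreducible) (ψ : AddChar E ℂ) (hψ : P ρ ψ ≠ 0) :
    ∑ χ ∈ orb (H := H) ψ, P ρ χ = 1 := by
  set Q : Module.End ℂ V := ∑ χ ∈ orb (H := H) ψ, P ρ χ with hQ
  have hE : ∀ e : E, ρ (inE e) * Q = Q * ρ (inE e) := by
    intro e
    rw [hQ, Finset.mul_sum, Finset.sum_mul]
    refine Finset.sum_congr rfl fun χ _ => ?_
    rw [rho_P, P_rho]
  have hH : ∀ h : H, ρ (inH h) * Q = Q * ρ (inH h) := by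
    intro h
    rw [hQ, Finset.mul_sum, Finset.sum_mul]
    refine Finset.sum_bij (fun χ _ => h • χ) ?_ ?_ ?_ ?_
    · intro χ hχ
      simp only [orb, Finset.mem_filter, Finset.mem_univ, true_and] at hχ ⊢
      obtain ⟨k, rfl⟩ := hχ
      exact ⟨h * k, mul_smul _ _ _⟩
    · intro χ _ χ' _ h1
      exact MulAction.injective h h1
    · intro χ hχ
      refine ⟨h⁻¹ • χ, ?_, smul_inv_smul h χ⟩
      simp only [orb, Finset.mem_filter, Finset.mem_univ, true_and] at hχ ⊢
      obtain ⟨k, rfl⟩ := hχ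
      exact ⟨h⁻¹ * k, mul_smul _ _ _⟩
    · intro χ _
      exact rhoH_P ρ χ h
  obtain ⟨c, hc⟩ := schur ρ hirr Q (by
    intro g v
    obtain ⟨e, h, rfl⟩ := exists_eq g
    have h1 : Q * ρ (inE e * inH h) = ρ (inE e * inH h) * Q := by
      rw [map_mul, ← mul_assoc, ← hE, mul_assoc, ← hH, mul_assoc]
    exact congrArg (fun S : Module.End ℂ V => S v) h1)
  have hQP : Q * P ρ ψ = P ρ ψ := by
    rw [hQ, Finset.sum_mul, Finset.sum_eq_single ψ]
    · exact P_idem ρ ψ
    · intro χ _ hne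
      exact P_orth ρ hne
    · intro hn
      exfalso
      apply hn
      simp only [orb, Finset.mem_filter, Finset.mem_univ, true_and]
      exact MulAction.mem_orbit_self ψ
  have hc1 : c = 1 := by
    have h1 : c • P ρ ψ = P ρ ψ := by
      conv_rhs => rw [← hQP, hc]
      rfl
    have h2 : (c - 1) • P ρ ψ = 0 := by rw [sub_smul, one_smul, h1, sub_self]
    exact sub_eq_zero.mp ((smul_eq_zero.mp h2).resolve_right hψ)
  rw [hc, hc1, one_smul]
  rfl

/-- If the weight `ψ` of an irreducible representation is trivial on all `H`-translates of `e`,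
then `e` acts trivially. -/
lemma trivial_of_weight (hirr : ρ.IsIrreducible) (ψ : AddChar E ℂ) (hψ : P ρ ψ ≠ 0) (e : E)
    (he : ∀ h : H, ψ (h • e) = 1) : ρ (inE e) = 1 := by
  classical
  have h1 := sum_orb ρ hirr ψ hψ
  have h2 : ρ (inE e) * ∑ χ ∈ orb (H := H) ψ, P ρ χ = ∑ χ ∈ orb (H := H) ψ, P ρ χ := by
    rw [Finset.mul_sum]
    refine Finset.sum_congr rfl fun χ hχ => ?_
    simp only [orb, Finset.mem_filter, Finset.mem_univ, true_and] at hχ
    obtain ⟨k, rfl⟩ := hχ
    rw [rho_P]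
    change ψ (k⁻¹ • e) • _ = _
    rw [he, one_smul]
  rw [h1, mul_one] at h2
  exact h2

omit [FiniteDimensional ℂ V] in
lemma exists_weight [Nontrivial V] : ∃ ψ : AddChar E ℂ, P ρ ψ ≠ 0 := by
  by_contra hc
  push Not at hc
  have h1 := sum_P ρ
  simp only [hc, Finset.sum_const_zero] at h1
  exact zero_ne_one h1

lemma trace_idem {T : Module.End ℂ V} (hT : T * T = T) :
    ∃ r : ℕ, LinearMap.trace ℂ V T = r := by
  have h1 : LinearMap.IsProj (LinearMap.range T) T := by
    constructor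
    · intro x; exact LinearMap.mem_range_self T x
    · rintro x ⟨y, rfl⟩
      exact congrArg (fun S : Module.End ℂ V => S y) hT
  exact ⟨_, h1.trace⟩

/-- The index of the stabilizer of a weight divides the degree. -/
theorem index_dvd (hirr : ρ.IsIrreducible) (ψ : AddChar E ℂ) (hψ : P ρ ψ ≠ 0) :
    (stab (H := H) ψ).index ∣ Module.finrank ℂ V := by
  classical
  have h1 := sum_orb ρ hirr ψ hψ
  obtain ⟨r, hr⟩ := trace_idem (P_idem ρ ψ)
  have h2 : ∀ χ ∈ orb (H := H) ψ, LinearMap.trace ℂ V (P ρ χ) = r := by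
    intro χ hχ
    simp only [orb, Finset.mem_filter, Finset.mem_univ, true_and] at hχ
    obtain ⟨k, rfl⟩ := hχ
    have h3 : P ρ (k • ψ) = ρ (inH k) * P ρ ψ * ρ (inH k⁻¹) := by
      rw [rhoH_P, mul_assoc, ← map_mul, ← inH_mul, mul_inv_cancel, inH_one, map_one, mul_one]
    change LinearMap.trace ℂ V (P ρ (k • ψ)) = r
    rw [h3, LinearMap.trace_mul_comm, ← mul_assoc, ← map_mul, ← inH_mul, inv_mul_cancel, inH_one,
      map_one, one_mul, hr]
  have h3 : (Module.finrank ℂ V : ℂ) = ((orb (H := H) ψ).card * r : ℕ) := by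
    have h4 := congrArg (LinearMap.trace ℂ V) h1
    rw [map_sum, Finset.sum_congr rfl h2, Finset.sum_const, nsmul_eq_mul, LinearMap.trace_one] at h4
    rw [← h4]
    push_cast
    rfl
  have h4 : Module.finrank ℂ V = (orb (H := H) ψ).card * r := by exact_mod_cast h3
  have h5 : (stab (H := H) ψ).index = (orb (H := H) ψ).card := by
    unfold stab
    rw [MulAction.index_stabilizer, ← Set.ncard_coe_finset]
    congr 1
    ext χ
    simp [orb]
  rw [h4, h5]
  exact Dvd.intro _ rfl

end irr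

end Pool.Agent.R403.RS
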