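import Pool.Agent.R403.RS.Exist

/-!
# Degrees coprime to `6` have at most two prime divisors
-/

open scoped BigOperators Matrix
open Representation

noncomputable section

namespace Pool.Agent.R403.RS

attribute [local instance] dualAction

variable {t : ℕ} {p : II t → ℕ}

theorem degree_bound (hp : ∀ i, (p i).Prime) (hp5 : ∀ i, 5 ≤ p i) (hp7 : ∀ i, p i ≠ 7)
    (hinj : Function.Injective p) {V : Type} [AddCommGroup V] [Module ℂ V]
    [FiniteDimensional ℂ V] (ρ : Representation ℂ (GG (EE p) (HH p)) V)
    (hirr : ρ.IsIrreducible) (hn : Nat.Coprime (Module.finrank ℂ V) 6) :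
    (Module.finrank ℂ V).primeFactors.card ≤ 2 := by
  classical
  haveI : ∀ i, NeZero (p i) := fun i => ⟨(hp i).ne_zero⟩
  haveI := irr_nontrivial ρ hirr
  set n := Module.finrank ℂ V with hndef
  have hnpos : n ≠ 0 := (Module.finrank_pos (R := ℂ) (M := V)).ne'
  obtain ⟨ψ, hψ⟩ := exists_weight ρ
  have hcard := card_G (p := p)
  obtain ⟨a, ha⟩ := card_EE (p := p)
  rw [ha] at hcard
  -- prime divisors of the degree
  have key : ∀ q, q.Prime → q ∣ n → q = 7 ∨
      ∃ i, q = p i ∧ ∃ (x : ZMod (p i)) (u : JJ t → ZMod 2), ψ (sgl i x u) ≠ 1 := by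
    intro q hq hqn
    have hq2 : q ≠ 2 := by
      rintro rfl
      have := Nat.dvd_gcd hqn (by norm_num : 2 ∣ 6)
      rw [hn] at this
      norm_num at this
    have hq3 : q ≠ 3 := by
      rintro rfl
      have := Nat.dvd_gcd hqn (by norm_num : 3 ∣ 6)
      rw [hn] at this
      norm_num at this
    have h1 : q ∣ 2 ^ a * ((∏ i, p i) * 168 ^ t) := by
      rw [← hcard]; exact hqn.trans (frob_dvd ρ hirr)
    rcases (Nat.Prime.dvd_mul hq).mp h1 with h2 | h2
    · exact absurd ((Nat.prime_dvd_prime_iff_eq hq Nat.prime_two).mp (hq.dvd_of_dvd_pow h2)) hq2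
    · rcases (Nat.Prime.dvd_mul hq).mp h2 with h3 | h3
      · right
        obtain ⟨i, -, hi⟩ := (Prime.dvd_finsetProd_iff hq.prime _).mp h3
        have hqi : q = p i := (Nat.prime_dvd_prime_iff_eq hq (hp i)).mp hi
        refine ⟨i, hqi, ?_⟩
        by_contra hc
        push Not at hc
        have h4 := not_dvd ρ hirr (block_trivial ρ hirr ψ hψ hc)
        rw [hcard, ← Finset.mul_prod_erase _ _ (Finset.mem_univ i)] at h4
        have h5 : 2 ^ a * (p i * (∏ j ∈ Finset.univ.erase i, p j) * 168 ^ t)
            = (2 ^ a * ((∏ j ∈ Finset.univ.erase i, p j) * 168 ^ t)) * p i := by ring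
        rw [h5] at h4
        have h6 := Nat.dvd_of_mul_dvd_mul_right (hp i).pos h4
        have h7 : p i ∣ 2 ^ a * ((∏ j ∈ Finset.univ.erase i, p j) * 168 ^ t) := by
          rw [← hqi]
          exact hqn.trans h6
        rcases (Nat.Prime.dvd_mul (hp i)).mp h7 with h8 | h8
        · have := (Nat.prime_dvd_prime_iff_eq (hp i) Nat.prime_two).mp
            ((hp i).dvd_of_dvd_pow h8)
          exact hq2 (hqi.trans this)
        · rcases (Nat.Prime.dvd_mul (hp i)).mp h8 with h9 | h9
          · obtain ⟨j, hj, hij⟩ := (Prime.dvd_finsetProd_iff (hp i).prime _).mp h9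
            have := (Nat.prime_dvd_prime_iff_eq (hp i) (hp j)).mp hij
            exact Finset.ne_of_mem_erase hj (hinj this.symm)
          · have h10 := (hp i).dvd_of_dvd_pow h9
            have h11 : p i ∣ 2 * 2 * 2 * 3 * 7 := by
              have : (168 : ℕ) = 2 * 2 * 2 * 3 * 7 := by norm_num
              rwa [this] at h10
            have hp' := hp i
            have e2 : ¬ p i ∣ 2 := fun h => by
              have := (Nat.prime_dvd_prime_iff_eq hp' Nat.prime_two).mp h
              have := hp5 i
              omega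
            have e3 : ¬ p i ∣ 3 := fun h => by
              have := (Nat.prime_dvd_prime_iff_eq hp' Nat.prime_three).mp h
              have := hp5 i
              omega
            have e7 : ¬ p i ∣ 7 := fun h =>
              hp7 i ((Nat.prime_dvd_prime_iff_eq hp' (by norm_num)).mp h)
            simp only [hp'.dvd_mul, e2, e3, e7, or_self] at h11
      · left
        have h10 := hq.dvd_of_dvd_pow h3
        have h11 : q ∣ 2 * 2 * 2 * 3 * 7 := by
          have : (168 : ℕ) = 2 * 2 * 2 * 3 * 7 := by norm_num
          rwa [this] at h10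
        have e2 : ¬ q ∣ 2 := fun h => hq2 ((Nat.prime_dvd_prime_iff_eq hq Nat.prime_two).mp h)
        have e3 : ¬ q ∣ 3 := fun h => hq3 ((Nat.prime_dvd_prime_iff_eq hq Nat.prime_three).mp h)
        simp only [hq.dvd_mul, e2, e3, or_self, false_or] at h11
        exact (Nat.prime_dvd_prime_iff_eq hq (by norm_num)).mp h11
  by_cases hex : ∃ i, ∃ (x : ZMod (p i)) (u : JJ t → ZMod 2), ψ (sgl i x u) ≠ 1
  · obtain ⟨i, x, u, hu⟩ := hex
    have hsub : n.primeFactors ⊆ {7, p i} := by
      intro q hq
      rw [Nat.mem_primeFactors] at hq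
      rw [Finset.mem_insert, Finset.mem_singleton]
      rcases key q hq.1 hq.2.1 with h | ⟨j, hj, y, w, hw⟩
      · exact Or.inl h
      · right
        by_cases hij : i = j
        · rw [hj, hij]
        · exact absurd (one_block ρ hirr hn ψ hψ hij hu hw) not_false
    exact (Finset.card_le_card hsub).trans Finset.card_le_two
  · have hsub : n.primeFactors ⊆ {7} := by
      intro q hq
      rw [Nat.mem_primeFactors] at hq
      rw [Finset.mem_singleton]
      rcases key q hq.1 hq.2.1 with h | ⟨j, hj, y, w, hw⟩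
      · exact h
      · exact absurd ⟨j, y, w, hw⟩ hex
    exact (Finset.card_le_card hsub).trans (by simp)

end Pool.Agent.R403.RS
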