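import Pool.Agent.R403.RS.Two

/-!
# A character with stabilizer of index divisible by `p i`, and the order of the group
-/

open scoped BigOperators Matrix
open Representation

noncomputable section

namespace Pool.Agent.R403.RS

attribute [local instance] dualAction

variable {t : ℕ} {p : II t → ℕ}

/-- The character `e ↦ (-1) ^ (e i 0 0)`. -/
def lam (p : II t → ℕ) (i : II t) : AddChar (EE p) ℂ where
  toFun e := chi2 (e i 0 (fun _ => 0))
  map_zero_eq_one' := AddChar.map_zero_eq_one chi2
  map_add_eq_mul' _ _ := AddChar.map_add_eq_mul chi2 _ _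

lemma lam_apply (i : II t) (e : EE p) : lam p i e = chi2 (e i 0 (fun _ => 0)) := rfl

lemma stab_le (i : II t) : stab (H := HH p) (lam p i) ≤
    (((Pi.evalMonoidHom (fun i => Multiplicative (ZMod (p i))) i).comp
      (MonoidHom.fst (CC p) (AA t))).ker) := by
  intro h hh
  rw [MonoidHom.mem_ker]
  change h.1 i = 1
  by_contra hne
  have hne' : (h.1 i).toAdd ≠ 0 := fun h0 => hne (Multiplicative.toAdd.injective h0)
  have h1 := mem_stab.mp hh (sgl i (-(h.1 i).toAdd) (KK i (h.2)⁻¹ *ᵥ Pi.single (fun _ => 0) 1))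
  rw [hsmul_sgl, neg_add_cancel, Matrix.mulVec_mulVec, ← KK_mul, mul_inv_cancel, KK_one,
    Matrix.one_mulVec, lam_apply, lam_apply] at h1
  have h2 := chi2_inj h1
  unfold sgl at h2
  rw [Pi.single_eq_same, Pi.single_eq_same, Pi.single_eq_same, Pi.single_eq_same,
    Pi.single_eq_of_ne (neg_ne_zero.mpr hne').symm] at h2
  exact one_ne_zero h2

lemma le_stab (i : II t) :
    ((Pi.evalMonoidHom (fun i => Multiplicative (ZMod (p i))) i).ker).prod
      (Subgroup.pi Set.univ fun k => row.comap (tw (i k))) ≤ stab (H := HH p) (lam p i) := by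
  intro h hh
  obtain ⟨h1, h2⟩ := Subgroup.mem_prod.mp hh
  rw [MonoidHom.mem_ker] at h1
  change h.1 i = 1 at h1
  rw [Subgroup.mem_pi] at h2
  rw [mem_stab]
  intro e
  rw [lam_apply, lam_apply, hsmul_apply, h1]
  change chi2 ((KK i h.2 *ᵥ e i (0 - 0)) fun _ => 0) = _
  rw [sub_zero]
  congr 1
  have h3 : (Pi.single (fun _ => 0) 1 : JJ t → ZMod 2) ᵥ* KK i h.2
      = (Pi.single (fun _ => 0) 1 : JJ t → ZMod 2) := by
    rw [← tens_single (fun _ => 0)]
    unfold KK
    rw [vecMul_kron]
    congr 1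
    funext k
    exact mem_row.mp (Subgroup.mem_comap.mp (h2 k (Set.mem_univ k)))
  have h4 : ∀ w : JJ t → ZMod 2, w (fun _ => 0) = Pi.single (fun _ => 0) 1 ⬝ᵥ w := by
    intro w
    rw [single_one_dotProduct]
  rw [h4 (KK i h.2 *ᵥ e i 0), h4 (e i 0), Matrix.dotProduct_mulVec, h3]

variable [∀ i, NeZero (p i)]

lemma index_eval (i : II t) :
    ((Pi.evalMonoidHom (fun i => Multiplicative (ZMod (p i))) i).ker).index = p i := by
  rw [Subgroup.index_ker, MonoidHom.range_eq_top.mpr (Function.surjective_eval i),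
    Subgroup.card_top]
  change Nat.card (ZMod (p i)) = p i
  exact Nat.card_zmod _

lemma stab_index_dvd (i : II t) : (stab (H := HH p) (lam p i)).index ∣ p i * 7 ^ t := by
  refine (Subgroup.index_dvd_of_le (le_stab i)).trans ?_
  rw [Subgroup.index_prod, index_eval, Subgroup.index_pi]
  have h1 : ∀ k, (row.comap (tw (i k))).index = 7 := by
    intro k
    rw [Subgroup.index_comap_of_surjective _ (tw_surj (i k)), row_index]
  simp [h1]

lemma dvd_stab_index (i : II t) : p i ∣ (stab (H := HH p) (lam p i)).index := by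
  have h1 := Subgroup.index_dvd_of_le (stab_le (p := p) i)
  have h2 : (((Pi.evalMonoidHom (fun i => Multiplicative (ZMod (p i))) i).comp
      (MonoidHom.fst (CC p) (AA t))).ker).index = p i := by
    rw [Subgroup.index_ker, MonoidHom.range_eq_top.mpr, Subgroup.card_top]
    · change Nat.card (ZMod (p i)) = p i
      exact Nat.card_zmod _
    · intro c
      refine ⟨(Pi.mulSingle i c, 1), ?_⟩
      change (Pi.mulSingle i c : CC p) i = c
      rw [Pi.mulSingle_eq_same]
  rwa [h2] at h1

lemma card_EE : ∃ a, Nat.card (EE p) = 2 ^ a := by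
  refine ⟨∑ i, p i * Nat.card (JJ t), ?_⟩
  rw [Nat.card_pi]
  have h1 : ∀ i, Nat.card (ZMod (p i) → JJ t → ZMod 2) = 2 ^ (p i * Nat.card (JJ t)) := by
    intro i
    rw [Nat.card_fun, Nat.card_fun, Nat.card_zmod, Nat.card_zmod, ← pow_mul, mul_comm]
  simp only [h1]
  rw [Finset.prod_pow_eq_pow_sum]

lemma card_G : Nat.card (GG (EE p) (HH p)) = Nat.card (EE p) * ((∏ i, p i) * 168 ^ t) := by
  have h1 : Nat.card (CC p) = ∏ i, p i := by
    rw [Nat.card_pi]
    refine Finset.prod_congr rfl fun i _ => ?_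
    change Nat.card (ZMod (p i)) = p i
    exact Nat.card_zmod _
  have h2 : Nat.card (AA t) = 168 ^ t := by
    rw [Nat.card_pi]
    simp only [card_GL3, Finset.prod_const, Finset.card_univ, Fintype.card_fin]
  rw [SemidirectProduct.card, Nat.card_prod, h1, h2]
  rfl

end Pool.Agent.R403.RS
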