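import Mathlib

/-!
# Schur's lemma and the divisibility `χ(1) ∣ |G|`
-/

open scoped BigOperators MonoidAlgebra
open Representation

noncomputable section

namespace Pool.Agent.R403.RS

variable {G : Type} [Group G]

/-- A criterion for irreducibility by invariant subspaces. -/
lemma isIrreducible_of {V : Type} [AddCommGroup V] [Module ℂ V] [Nontrivial V]
    (ρ : Representation ℂ G V)
    (h : ∀ W : Submodule ℂ V, (∀ g : G, ∀ v ∈ W, ρ g v ∈ W) → W ≠ ⊥ → W = ⊤) :
    ρ.IsIrreducible := by
  have hnt : Nontrivial (Subrepresentation ρ) := by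
    refine ⟨⟨⊥, ⊤, ?_⟩⟩
    intro h1
    have h2 : (⊥ : Submodule ℂ V) = ⊤ :=
      congrArg (fun S : Subrepresentation ρ => S.toSubmodule) h1
    exact bot_ne_top h2
  refine { toNontrivial := hnt, eq_bot_or_eq_top := ?_ }
  intro S
  by_cases hS : S.toSubmodule = ⊥
  · left
    exact Subrepresentation.toSubmodule_injective hS
  · right
    refine Subrepresentation.toSubmodule_injective ?_
    exact h S.toSubmodule (fun g v hv => S.apply_mem_toSubmodule g hv) hS

lemma eq_top_of {V : Type} [AddCommGroup V] [Module ℂ V]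
    (ρ : Representation ℂ G V) (hirr : ρ.IsIrreducible) (W : Submodule ℂ V)
    (h : ∀ g : G, ∀ v ∈ W, ρ g v ∈ W) (hW : W ≠ ⊥) : W = ⊤ := by
  let S : Subrepresentation ρ := ⟨W, fun g v hv => h g v hv⟩
  rcases hirr.eq_bot_or_eq_top S with h1 | h1
  · exact absurd (congrArg (fun S : Subrepresentation ρ => S.toSubmodule) h1) hW
  · exact congrArg (fun S : Subrepresentation ρ => S.toSubmodule) h1

/-- Schur: commuting operators are scalars -/
lemma schur {V : Type} [AddCommGroup V] [Module ℂ V] [FiniteDimensional ℂ V]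
    (rho : Representation ℂ G V) (hirr : rho.IsIrreducible) (T : V →ₗ[ℂ] V)
    (hcomm : ∀ (h : G) (v : V), T (rho h v) = rho h (T v)) : ∃ c : ℂ, T = c • LinearMap.id := by
  let T' : IntertwiningMap rho rho := T.intertwiningMap_of_isIntertwiningMap rho rho hcomm
  obtain ⟨c, hc⟩ := (Representation.IsIrreducible.algebraMap_intertwiningMap_bijective_of_isAlgClosed
    (ρ := rho)).2 T'
  refine ⟨c, ?_⟩
  ext v
  have := congrArg (fun S : IntertwiningMap rho rho => S v) hc
  have h2 : T' v = T v := rfl
  rw [← h2]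
  exact this.symm

lemma irr_nontrivial {V : Type} [AddCommGroup V] [Module ℂ V]
    (rho : Representation ℂ G V) (hirr : rho.IsIrreducible) : Nontrivial V := by
  by_contra hn
  rw [not_nontrivial_iff_subsingleton] at hn
  have : Subsingleton (Subrepresentation rho) := by
    constructor
    intro a b
    ext x
    have : x = 0 := Subsingleton.elim _ _
    subst this
    simp
  have h5 := hirr.toNontrivial
  exact not_subsingleton (Subrepresentation rho) this

/-- character values are algebraic integers -/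
lemma char_isIntegral [Finite G] {V : Type} [AddCommGroup V] [Module ℂ V] [FiniteDimensional ℂ V]
    (ρ : Representation ℂ G V) (g : G) : IsIntegral ℤ (ρ.character g) := by
  unfold Representation.character
  rw [Module.End.trace_eq_sum_roots_charpoly_of_splits (IsAlgClosed.splits _)]
  have key : ∀ μ ∈ (LinearMap.charpoly (ρ g)).roots, IsIntegral ℤ μ := by
    intro μ hμ
    have h1 : (LinearMap.charpoly (ρ g)).IsRoot μ := (Polynomial.mem_roots'.mp hμ).2
    have h2 := (Module.End.hasEigenvalue_iff_isRoot_charpoly (ρ g) μ).mpr h1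
    obtain ⟨v, hv⟩ := h2.exists_hasEigenvector
    have h3 : ∀ n : ℕ, ((ρ g) ^ n) v = μ ^ n • v := fun n => by
      induction n with
      | zero => simp
      | succ n ih =>
        rw [pow_succ', Module.End.mul_apply, ih, map_smul, hv.apply_eq_smul, smul_smul, pow_succ]
    have h4 := h3 (orderOf g)
    rw [← map_pow, pow_orderOf_eq_one, map_one, Module.End.one_apply] at h4
    have h5 : μ ^ orderOf g = 1 := by
      have h6 : (μ ^ orderOf g - 1) • v = 0 := by
        rw [sub_smul, one_smul, ← h4, sub_self]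
      rcases smul_eq_zero.mp h6 with h7 | h7
      · exact sub_eq_zero.mp h7
      · exact absurd h7 hv.2
    refine ⟨Polynomial.X ^ orderOf g - 1, Polynomial.monic_X_pow_sub_C 1 (orderOf_pos g).ne' , ?_⟩
    simp [h5]
  generalize (LinearMap.charpoly (ρ g)).roots = s at key
  induction s using Multiset.induction_on with
  | empty => simpa using isIntegral_zero
  | cons a s ih =>
    rw [Multiset.sum_cons]
    exact (key a (Multiset.mem_cons_self a s)).add
      (ih (fun μ hμ => key μ (Multiset.mem_cons_of_mem hμ)))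

/-- class functions act by scalars -/
lemma class_scalar [Fintype G] {V : Type} [AddCommGroup V] [Module ℂ V] [FiniteDimensional ℂ V]
    (ρ : Representation ℂ G V) (hr : ρ.IsIrreducible) (f : G → ℂ)
    (hf : ∀ g y, f (y * g * y⁻¹) = f g) :
    ∑ g, f g • ρ g = ((∑ g, f g * ρ.character g) / ρ.character 1) • (LinearMap.id : V →ₗ[ℂ] V) := by
  obtain ⟨c, hc⟩ := schur ρ hr (∑ g, f g • ρ g) (by
    intro h v
    simp only [LinearMap.sum_apply, LinearMap.smul_apply, map_sum, map_smul]
    refine Fintype.sum_equiv (MulAut.conj h⁻¹).toEquiv _ _ ?_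
    intro g
    have e1 : (MulAut.conj h⁻¹).toEquiv g = h⁻¹ * g * h := by simp
    rw [e1]
    have h1 : f (h⁻¹ * g * h) = f g := by
      have := hf g h⁻¹
      simpa using this
    rw [h1, ← Module.End.mul_apply, ← Module.End.mul_apply, ← map_mul, ← map_mul]
    congr 3
    group)
  haveI := irr_nontrivial ρ hr
  have hχ : ρ.character 1 ≠ 0 := by
    rw [ρ.char_one]
    exact_mod_cast (Module.finrank_pos (R := ℂ) (M := V)).ne'
  have htr : LinearMap.trace ℂ V (∑ g, f g • ρ g) = ∑ g, f g * ρ.character g := by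
    simp [Representation.character]
  rw [hc, map_smul, LinearMap.trace_id, smul_eq_mul, ← ρ.char_one] at htr
  rw [hc, ← htr, mul_div_cancel_right₀ _ hχ]

lemma pair_self [Fintype G] {V : Type} [AddCommGroup V] [Module ℂ V] [FiniteDimensional ℂ V]
    (ρ : Representation ℂ G V) (hρ : ρ.IsIrreducible) :
    ∑ g : G, ρ.character g * ρ.character g⁻¹ = (Nat.card G : ℂ) := by
  have hG : (Nat.card G : ℂ) ≠ 0 := by exact_mod_cast Nat.card_pos.ne'
  have : Invertible (Nat.card G : ℂ) := invertibleOfNonzero hG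
  have h := Representation.char_orthonormal ρ ρ
  rw [if_pos ⟨Representation.Equiv.refl ρ⟩] at h
  field_simp at h
  exact h

lemma dvd_of_isIntegral {a b : ℕ} (hb : 0 < b) (h : IsIntegral ℤ ((a : ℂ) / (b : ℂ))) :
    b ∣ a := by
  have h1 : ((a : ℂ) / (b : ℂ)) = algebraMap ℚ ℂ ((a : ℚ) / (b : ℚ)) := by simp
  rw [h1, isIntegral_algebraMap_iff (algebraMap ℚ ℂ).injective] at h
  obtain ⟨z, hz⟩ := IsIntegrallyClosed.isIntegral_iff.mp h
  have hb' : (b : ℚ) ≠ 0 := by exact_mod_cast hb.ne'
  have h2 : ((b : ℤ) : ℚ) * z = ((a : ℤ) : ℚ) := by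
    have h3 : (z : ℚ) = (a : ℚ) / (b : ℚ) := by simpa using hz
    rw [h3]
    push_cast
    field_simp
  have h3 : (b : ℤ) * z = (a : ℤ) := by exact_mod_cast h2
  have h4 : (b : ℤ) ∣ (a : ℤ) := ⟨z, h3.symm⟩
  exact_mod_cast h4

/-- The degree of an irreducible complex representation divides the order of the group. -/
theorem frob_dvd [Finite G] {V : Type} [AddCommGroup V] [Module ℂ V] [FiniteDimensional ℂ V]
    (ρ : Representation ℂ G V) (hr : ρ.IsIrreducible) : Module.finrank ℂ V ∣ Nat.card G := by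
  haveI := Fintype.ofFinite G
  haveI := irr_nontrivial ρ hr
  have hpos : 0 < Module.finrank ℂ V := Module.finrank_pos
  refine dvd_of_isIntegral hpos ?_
  have h1 := class_scalar ρ hr (fun g => ρ.character g⁻¹) (by
    intro g y
    have : (y * g * y⁻¹)⁻¹ = y * g⁻¹ * y⁻¹ := by group
    rw [this]
    exact ρ.char_conj g⁻¹ y)
  have h2 : ∑ g : G, ρ.character g⁻¹ * ρ.character g = (Nat.card G : ℂ) := by
    rw [← pair_self ρ hr]
    exact Finset.sum_congr rfl fun g _ => mul_comm _ _
  rw [h2, ρ.char_one] at h1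
  let R := integralClosure ℤ ℂ
  have hint : ∀ g : G, ρ.character g⁻¹ ∈ R := fun g => char_isIntegral ρ g⁻¹
  let φ : MonoidAlgebra R G →ₐ[R] Module.End ℂ V := MonoidAlgebra.lift R (Module.End ℂ V) G ρ
  let k : MonoidAlgebra R G :=
    ∑ g : G, (⟨ρ.character g⁻¹, hint g⟩ : R) • MonoidAlgebra.of R G g
  have hk : IsIntegral R k := IsIntegral.of_finite R k
  have h3 : IsIntegral R (φ k) := hk.map φ
  have h4 : φ k = ∑ g, ρ.character g⁻¹ • ρ g := by
    simp only [φ, k, map_sum, map_smul]
    refine Finset.sum_congr rfl fun y _ => ?_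
    ext v
    simp [Subalgebra.smul_def]
  rw [h4, h1] at h3
  set c : ℂ := (Nat.card G : ℂ) / (Module.finrank ℂ V : ℂ) with hc
  have h5 : (c • (LinearMap.id : V →ₗ[ℂ] V)) = algebraMap ℂ (Module.End ℂ V) c := rfl
  rw [h5] at h3
  have h6 : IsIntegral R c :=
    (isIntegral_algebraMap_iff (FaithfulSMul.algebraMap_injective ℂ (Module.End ℂ V))).mp h3
  exact isIntegral_trans c h6

end Pool.Agent.R403.RS
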