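import Mathlib

/-!
# Subgroups of `GL₃(𝔽₂)` fixing a nonzero vector and a nonzero covector
-/

open scoped BigOperators Matrix

noncomputable section

namespace Pool.Agent.R403.RS

/-- `GL₃(𝔽₂)`. -/
abbrev GL3 : Type := GL (Fin 3) (ZMod 2)

lemma card_GL3 : Nat.card GL3 = 168 := by
  rw [Matrix.card_GL_field]
  simp [Fin.prod_univ_succ, ZMod.card]

/-- The inverse transpose automorphism. -/
def invT : GL3 →* GL3 where
  toFun g :=
    { val := ((g⁻¹ : GL3) : Matrix (Fin 3) (Fin 3) (ZMod 2))ᵀ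
      inv := (g : Matrix (Fin 3) (Fin 3) (ZMod 2))ᵀ
      val_inv := by rw [← Matrix.transpose_mul, Units.mul_inv, Matrix.transpose_one]
      inv_val := by rw [← Matrix.transpose_mul, Units.inv_mul, Matrix.transpose_one] }
  map_one' := by
    apply Units.ext
    change (((1 : GL3)⁻¹ : GL3) : Matrix (Fin 3) (Fin 3) (ZMod 2))ᵀ = 1
    rw [inv_one, Units.val_one, Matrix.transpose_one]
  map_mul' a b := by
    apply Units.ext
    change (((a * b)⁻¹ : GL3) : Matrix (Fin 3) (Fin 3) (ZMod 2))ᵀ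
      = ((a⁻¹ : GL3) : Matrix (Fin 3) (Fin 3) (ZMod 2))ᵀ
        * ((b⁻¹ : GL3) : Matrix (Fin 3) (Fin 3) (ZMod 2))ᵀ
    rw [mul_inv_rev, Units.val_mul, Matrix.transpose_mul]

lemma invT_val (g : GL3) : ((invT g : GL3) : Matrix (Fin 3) (Fin 3) (ZMod 2))
    = ((g⁻¹ : GL3) : Matrix (Fin 3) (Fin 3) (ZMod 2))ᵀ := rfl

lemma invT_invT (g : GL3) : invT (invT g) = g := by
  apply Units.ext
  change ((((invT g)⁻¹ : GL3) : Matrix (Fin 3) (Fin 3) (ZMod 2)))ᵀ = _
  have h : (((invT g)⁻¹ : GL3) : Matrix (Fin 3) (Fin 3) (ZMod 2))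
    = (g : Matrix (Fin 3) (Fin 3) (ZMod 2))ᵀ := rfl
  rw [h, Matrix.transpose_transpose]

/-- The identity (`false`) and the inverse transpose (`true`). -/
def tw (b : Bool) : GL3 →* GL3 := if b then invT else MonoidHom.id GL3

lemma tw_surj (b : Bool) : Function.Surjective (tw b) := by
  cases b
  · exact fun g => ⟨g, rfl⟩
  · exact fun g => ⟨invT g, invT_invT g⟩

/-- The nontrivial character of `𝔽₂`. -/
def chi2 : AddChar (ZMod 2) ℂ := AddChar.zmodChar 2 (ζ := (-1 : ℂ)) (by norm_num)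

lemma chi2_zero : chi2 0 = 1 := AddChar.map_zero_eq_one _

lemma chi2_one : chi2 1 = -1 := by
  unfold chi2
  rw [AddChar.zmodChar_apply]
  have : (1 : ZMod 2).val = 1 := rfl
  rw [this, pow_one]

lemma zmod2 (a : ZMod 2) : a = 0 ∨ a = 1 := by
  revert a; decide

lemma chi2_inj {a b : ZMod 2} (h : chi2 a = chi2 b) : a = b := by
  rcases zmod2 a with rfl | rfl <;> rcases zmod2 b with rfl | rfl
  · rfl
  · rw [chi2_zero, chi2_one] at h; norm_num at h
  · rw [chi2_zero, chi2_one] at h; norm_num at h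
  · rfl

lemma map_sum_prod {A κ : Type} [AddCommGroup A] (ψ : AddChar A ℂ) (s : Finset κ) (f : κ → A) :
    ψ (∑ i ∈ s, f i) = ∏ i ∈ s, ψ (f i) := by
  classical
  induction s using Finset.induction_on with
  | empty => simp
  | insert a s ha ih => rw [Finset.sum_insert ha, Finset.prod_insert ha, AddChar.map_add_eq_mul, ih]

lemma exists_covector {ι : Type} [Fintype ι] [DecidableEq ι] (ψ : AddChar (ι → ZMod 2) ℂ) :
    ∃ y : ι → ZMod 2, ∀ v, ψ v = chi2 (y ⬝ᵥ v) := by
  classical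
  refine ⟨fun j => if ψ (Pi.single j 1) = 1 then 0 else 1, ?_⟩
  intro v
  have h1 : ∀ (j : ι) (a : ZMod 2), ψ (Pi.single j a)
      = chi2 ((if ψ (Pi.single j 1) = 1 then 0 else 1) * a) := by
    intro j a
    rcases zmod2 a with rfl | rfl
    · rw [Pi.single_zero, mul_zero, chi2_zero, AddChar.map_zero_eq_one]
    · rw [mul_one]
      by_cases h : ψ (Pi.single j 1) = 1
      · rw [if_pos h, chi2_zero, h]
      · rw [if_neg h, chi2_one]
        have h2 : ψ (Pi.single j 1) * ψ (Pi.single j 1) = 1 := by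
          rw [← AddChar.map_add_eq_mul, ← Pi.single_add]
          have : (1 : ZMod 2) + 1 = 0 := by decide
          rw [this, Pi.single_zero, AddChar.map_zero_eq_one]
        exact (mul_self_eq_one_iff.mp h2).resolve_left h
  conv_lhs => rw [← Finset.univ_sum_single v]
  rw [map_sum_prod]
  unfold dotProduct
  rw [map_sum_prod]
  exact Finset.prod_congr rfl fun j _ => h1 j (v j)

lemma dotProduct_ext {ι : Type} [Fintype ι] [DecidableEq ι] {y z : ι → ZMod 2}
    (h : ∀ v, y ⬝ᵥ v = z ⬝ᵥ v) : y = z := by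
  ext j
  have := h (Pi.single j 1)
  simpa using this

/-- At most `16` elements fix a given nonzero vector and a given nonzero covector. -/
lemma card_le (S : Subgroup GL3) (x y : Fin 3 → ZMod 2) (hx : x ≠ 0) (hy : y ≠ 0)
    (h1 : ∀ s ∈ S, (s : Matrix (Fin 3) (Fin 3) (ZMod 2)) *ᵥ x = x)
    (h2 : ∀ s ∈ S, y ᵥ* (s : Matrix (Fin 3) (Fin 3) (ZMod 2)) = y) : Nat.card S ≤ 16 := by
  classical
  obtain ⟨j₀, hj₀⟩ : ∃ j, x j ≠ 0 := Function.ne_iff.mp hx
  obtain ⟨i₀, hi₀⟩ : ∃ i, y i ≠ 0 := Function.ne_iff.mp hy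
  have hxj : x j₀ = 1 := (zmod2 _).resolve_left hj₀
  have hyi : y i₀ = 1 := (zmod2 _).resolve_left hi₀
  let f : S → ({i : Fin 3 // i ≠ i₀} → {j : Fin 3 // j ≠ j₀} → ZMod 2) :=
    fun s i j => (s.1 : Matrix (Fin 3) (Fin 3) (ZMod 2)) i.1 j.1
  have hf : Function.Injective f := by
    intro s s' hss
    apply Subtype.ext
    apply Units.ext
    have e1 : ∀ i, i ≠ i₀ → ∀ j, (s.1 : Matrix (Fin 3) (Fin 3) (ZMod 2)) i j
        = (s'.1 : Matrix (Fin 3) (Fin 3) (ZMod 2)) i j := by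
      intro i hi j
      by_cases hj : j = j₀
      · subst hj
        have a1 := congrFun (h1 s.1 s.2) i
        have a2 := congrFun (h1 s'.1 s'.2) i
        simp only [Matrix.mulVec, dotProduct] at a1 a2
        rw [← Finset.add_sum_erase _ _ (Finset.mem_univ j), hxj, mul_one] at a1 a2
        have a3 : ∑ k ∈ Finset.univ.erase j,
            (s.1 : Matrix (Fin 3) (Fin 3) (ZMod 2)) i k * x k
            = ∑ k ∈ Finset.univ.erase j,
            (s'.1 : Matrix (Fin 3) (Fin 3) (ZMod 2)) i k * x k := by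
          refine Finset.sum_congr rfl fun k hk => ?_
          have a4 := congrFun (congrFun hss ⟨i, hi⟩) ⟨k, Finset.ne_of_mem_erase hk⟩
          have a5 : (s.1 : Matrix (Fin 3) (Fin 3) (ZMod 2)) i k
            = (s'.1 : Matrix (Fin 3) (Fin 3) (ZMod 2)) i k := a4
          rw [a5]
        rw [a3] at a1
        exact add_right_cancel (a1.trans a2.symm)
      · exact congrFun (congrFun hss ⟨i, hi⟩) ⟨j, hj⟩
    ext i j
    by_cases hi : i = i₀
    · subst hi
      have a1 := congrFun (h2 s.1 s.2) j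
      have a2 := congrFun (h2 s'.1 s'.2) j
      simp only [Matrix.vecMul, dotProduct] at a1 a2
      rw [← Finset.add_sum_erase _ _ (Finset.mem_univ i), hyi, one_mul] at a1 a2
      have a3 : ∑ k ∈ Finset.univ.erase i,
          y k * (s.1 : Matrix (Fin 3) (Fin 3) (ZMod 2)) k j
          = ∑ k ∈ Finset.univ.erase i,
          y k * (s'.1 : Matrix (Fin 3) (Fin 3) (ZMod 2)) k j := by
        refine Finset.sum_congr rfl fun k hk => ?_
        rw [e1 k (Finset.ne_of_mem_erase hk) j]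
      rw [a3] at a1
      exact add_right_cancel (a1.trans a2.symm)
    · exact e1 i hi j
  have h3 := Nat.card_le_card_of_injective f hf
  refine h3.trans ?_
  have e1 : ∀ k : Fin 3, Fintype.card {i : Fin 3 // i ≠ k} = 2 := by
    intro k
    rw [Fintype.card_subtype_compl]
    simp
  rw [Nat.card_eq_fintype_card, Fintype.card_fun, Fintype.card_fun, e1, e1, ZMod.card]
  norm_num

/-- A subgroup of `GL₃(𝔽₂)` fixing a nontrivial character of the natural module and a nontrivial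
character of the dual module has index divisible by `2` or `3`. -/
theorem not_coprime (S : Subgroup GL3) (ψ ψ' : AddChar (Fin 3 → ZMod 2) ℂ)
    (hψ : ∃ v, ψ v ≠ 1) (hψ' : ∃ v, ψ' v ≠ 1)
    (h1 : ∀ s ∈ S, ∀ v, ψ ((tw false s : Matrix (Fin 3) (Fin 3) (ZMod 2)) *ᵥ v) = ψ v)
    (h2 : ∀ s ∈ S, ∀ v, ψ' ((tw true s : Matrix (Fin 3) (Fin 3) (ZMod 2)) *ᵥ v) = ψ' v) :
    ¬ Nat.Coprime S.index 6 := by
  intro hcop
  obtain ⟨y, hy⟩ := exists_covector ψ
  obtain ⟨x, hx⟩ := exists_covector ψ'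
  have hy0 : y ≠ 0 := by
    rintro rfl
    obtain ⟨v, hv⟩ := hψ
    apply hv
    rw [hy, zero_dotProduct, chi2_zero]
  have hx0 : x ≠ 0 := by
    rintro rfl
    obtain ⟨v, hv⟩ := hψ'
    apply hv
    rw [hx, zero_dotProduct, chi2_zero]
  have g2 : ∀ s ∈ S, y ᵥ* (s : Matrix (Fin 3) (Fin 3) (ZMod 2)) = y := by
    intro s hs
    apply dotProduct_ext
    intro v
    have a1 := h1 s hs v
    rw [hy, hy] at a1
    have a2 := chi2_inj a1
    rw [Matrix.dotProduct_mulVec] at a2
    exact a2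
  have g1 : ∀ s ∈ S, (s : Matrix (Fin 3) (Fin 3) (ZMod 2)) *ᵥ x = x := by
    intro s hs
    have a0 : x ᵥ* ((s⁻¹ : GL3) : Matrix (Fin 3) (Fin 3) (ZMod 2))ᵀ = x := by
      apply dotProduct_ext
      intro v
      have a1 := h2 s hs v
      rw [hx, hx] at a1
      have a2 := chi2_inj a1
      rw [Matrix.dotProduct_mulVec] at a2
      exact a2
    rw [Matrix.vecMul_transpose] at a0
    conv_lhs => rw [← a0]
    rw [Matrix.mulVec_mulVec, Units.mul_inv, Matrix.one_mulVec]
  have g3 := card_le S x y hx0 hy0 g1 g2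
  have g4 : Nat.card S * S.index = 168 := by rw [Subgroup.card_mul_index, card_GL3]
  have g5 : 24 ∣ Nat.card S := by
    have g6 : Nat.Coprime 24 S.index := by
      have h8 : Nat.Coprime S.index (6 ^ 3) := hcop.pow_right 3
      exact (Nat.Coprime.coprime_dvd_right (by norm_num : 24 ∣ 6 ^ 3) h8).symm
    exact g6.dvd_of_dvd_mul_right (by rw [g4]; norm_num)
  have g7 := Nat.le_of_dvd Nat.card_pos g5
  omega

/-- The subgroup of elements whose first row is `(1,0,0)`. -/
def row : Subgroup GL3 where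
  carrier := {g | Pi.single 0 1 ᵥ* (g : Matrix (Fin 3) (Fin 3) (ZMod 2)) = Pi.single 0 1}
  mul_mem' {a b} ha hb := by
    change _ ᵥ* ((a * b : GL3) : Matrix (Fin 3) (Fin 3) (ZMod 2)) = _
    rw [Units.val_mul, ← Matrix.vecMul_vecMul]
    rw [show Pi.single 0 1 ᵥ* (a : Matrix (Fin 3) (Fin 3) (ZMod 2)) = Pi.single 0 1 from ha]
    exact hb
  one_mem' := by
    change _ ᵥ* ((1 : GL3) : Matrix (Fin 3) (Fin 3) (ZMod 2)) = _
    rw [Units.val_one, Matrix.vecMul_one]
  inv_mem' {a} ha := by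
    have ha' : Pi.single 0 1 ᵥ* (a : Matrix (Fin 3) (Fin 3) (ZMod 2)) = Pi.single 0 1 := ha
    change Pi.single 0 1 ᵥ* ((a⁻¹ : GL3) : Matrix (Fin 3) (Fin 3) (ZMod 2)) = _
    conv_lhs => rw [← ha']
    rw [Matrix.vecMul_vecMul, Units.mul_inv, Matrix.vecMul_one]

lemma mem_row {g : GL3} :
    g ∈ row ↔ Pi.single 0 1 ᵥ* (g : Matrix (Fin 3) (Fin 3) (ZMod 2)) = Pi.single 0 1 := Iff.rfl

/-- Row vectors. -/
def RowV : Type := Fin 3 → ZMod 2

lemma row_aux1 (y : Fin 3 → ZMod 2) :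
    y ᵥ* (((1 : GL3)⁻¹ : GL3) : Matrix (Fin 3) (Fin 3) (ZMod 2)) = y := by
  rw [inv_one, Units.val_one, Matrix.vecMul_one]

lemma row_aux2 (a b : GL3) (y : Fin 3 → ZMod 2) :
    y ᵥ* (((a * b)⁻¹ : GL3) : Matrix (Fin 3) (Fin 3) (ZMod 2))
      = (y ᵥ* ((b⁻¹ : GL3) : Matrix (Fin 3) (Fin 3) (ZMod 2))) ᵥ*
        ((a⁻¹ : GL3) : Matrix (Fin 3) (Fin 3) (ZMod 2)) := by
  rw [mul_inv_rev, Units.val_mul, Matrix.vecMul_vecMul]

/-- The action of `GL₃(𝔽₂)` on row vectors. -/
instance rowAction : MulAction GL3 RowV where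
  smul g y := Matrix.vecMul (show Fin 3 → ZMod 2 from y)
    ((g⁻¹ : GL3) : Matrix (Fin 3) (Fin 3) (ZMod 2))
  one_smul y := row_aux1 y
  mul_smul a b y := row_aux2 a b y

lemma exists_first_row (v : Fin 3 → ZMod 2) (hv : v ≠ 0) :
    ∃ g : GL3, Pi.single 0 1 ᵥ* (g : Matrix (Fin 3) (Fin 3) (ZMod 2)) = v := by
  have key : ∃ M : Matrix (Fin 3) (Fin 3) (ZMod 2), M.det ≠ 0 ∧ M 0 = v := by
    rcases zmod2 (v 0) with h0 | h0
    · rcases zmod2 (v 1) with h1 | h1
      · have h2 : v 2 = 1 := by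
          rcases zmod2 (v 2) with h2 | h2
          · exfalso
            apply hv
            ext i
            fin_cases i
            · exact h0
            · exact h1
            · exact h2
          · exact h2
        refine ⟨!![0, 0, 1; 1, 0, 0; 0, 1, 0], by decide, ?_⟩
        ext i
        fin_cases i
        · exact h0.symm
        · exact h1.symm
        · exact h2.symm
      · refine ⟨!![0, 1, v 2; 1, 0, 0; 0, 0, 1], ?_, ?_⟩
        · rw [Matrix.det_fin_three]
          simp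
        · ext i
          fin_cases i
          · exact h0.symm
          · exact h1.symm
          · rfl
    · refine ⟨!![1, v 1, v 2; 0, 1, 0; 0, 0, 1], ?_, ?_⟩
      · rw [Matrix.det_fin_three]
        simp
      · ext i
        fin_cases i
        · exact h0.symm
        · rfl
        · rfl
  obtain ⟨M, hM, hM0⟩ := key
  refine ⟨Matrix.GeneralLinearGroup.mkOfDetNeZero M hM, ?_⟩
  rw [Matrix.single_one_vecMul]
  exact hM0

lemma row_index : row.index = 7 := by
  let e : RowV := (Pi.single 0 1 : Fin 3 → ZMod 2)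
  let z : RowV := (0 : Fin 3 → ZMod 2)
  have hcard : Nat.card RowV = 8 := by
    change Nat.card (Fin 3 → ZMod 2) = 8
    rw [Nat.card_eq_fintype_card, Fintype.card_fun, ZMod.card]
    norm_num
  haveI : Finite RowV := inferInstanceAs (Finite (Fin 3 → ZMod 2))
  have h1 : row = MulAction.stabilizer GL3 e := by
    ext g
    rw [MulAction.mem_stabilizer_iff, ← row.inv_mem_iff]
    rfl
  have h2 : MulAction.orbit GL3 e = {z}ᶜ := by
    ext v
    constructor
    · rintro ⟨g, rfl⟩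
      rw [Set.mem_compl_singleton_iff]
      intro h
      have h3 : g⁻¹ • (g • e) = g⁻¹ • z := congrArg _ h
      rw [inv_smul_smul] at h3
      have h4 : g⁻¹ • z = z := Matrix.zero_vecMul _
      rw [h4] at h3
      have h5 : (Pi.single 0 1 : Fin 3 → ZMod 2) 0 = (0 : Fin 3 → ZMod 2) 0 := congrFun h3 0
      simp at h5
    · intro hv
      obtain ⟨g, hg⟩ := exists_first_row v hv
      refine ⟨g⁻¹, ?_⟩
      change Pi.single 0 1 ᵥ* (((g⁻¹)⁻¹ : GL3) : Matrix (Fin 3) (Fin 3) (ZMod 2)) = v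
      rw [inv_inv]
      exact hg
  rw [h1, MulAction.index_stabilizer, h2, Set.ncard_compl, Set.ncard_singleton, hcard]

end Pool.Agent.R403.RS
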