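import Pool.Agent.R403.RS.Mono
import Pool.Agent.R403.RS.GL3

/-!
# The groups
-/

open scoped BigOperators Matrix
open Representation

noncomputable section

namespace Pool.Agent.R403.RS

/-- The index of the preimage of `T` under a homomorphism with normal image divides the index of
`T`. -/
lemma comap_index_dvd {G G' : Type} [Group G] [Group G'] [Finite G] (f : G' →* G)
    (hf : f.range.Normal) (T : Subgroup G) : (T.comap f).index ∣ T.index := by
  rw [Subgroup.index_comap]
  set K := f.range with hK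
  haveI := hf
  have h1 : T.relIndex K * K.index = (T ⊓ K).index := by
    rw [← Subgroup.inf_relIndex_right, Subgroup.relIndex_mul_index inf_le_right]
  have h2 : K.relIndex T * T.index = (T ⊓ K).index := by
    rw [← Subgroup.inf_relIndex_left, Subgroup.relIndex_mul_index inf_le_left]
  obtain ⟨m, hm⟩ := Subgroup.relIndex_dvd_index_of_normal K T
  have h3 : K.relIndex T ≠ 0 := by
    intro h0
    have h4 := Subgroup.relIndex_dvd_card K T
    rw [h0, zero_dvd_iff] at h4
    exact Nat.card_pos.ne' h4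
  refine ⟨m, ?_⟩
  apply Nat.eq_of_mul_eq_mul_left (Nat.pos_of_ne_zero h3)
  rw [h2, ← h1, hm]
  ring

section kron

variable {t : ℕ}

/-- Multi-indices. -/
abbrev JJ (t : ℕ) : Type := Fin t → Fin 3

/-- Kronecker product of matrices. -/
def kron (g : Fin t → Matrix (Fin 3) (Fin 3) (ZMod 2)) : Matrix (JJ t) (JJ t) (ZMod 2) :=
  Matrix.of fun j j' => ∏ k, g k (j k) (j' k)

/-- Pure tensors. -/
def tens (u : Fin t → Fin 3 → ZMod 2) : JJ t → ZMod 2 := fun j => ∏ k, u k (j k)

lemma sum_prod (F : Fin t → Fin 3 → ZMod 2) :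
    ∑ j : JJ t, ∏ k, F k (j k) = ∏ k, ∑ m, F k m := by
  rw [Finset.prod_univ_sum]
  rfl

lemma kron_one : kron (fun _ : Fin t => (1 : Matrix (Fin 3) (Fin 3) (ZMod 2))) = 1 := by
  ext j j'
  change ∏ k, (1 : Matrix (Fin 3) (Fin 3) (ZMod 2)) (j k) (j' k) = _
  by_cases h : j = j'
  · subst h
    simp
  · rw [Matrix.one_apply_ne h]
    obtain ⟨k, hk⟩ := Function.ne_iff.mp h
    exact Finset.prod_eq_zero (Finset.mem_univ k) (Matrix.one_apply_ne hk)

lemma kron_mul (g g' : Fin t → Matrix (Fin 3) (Fin 3) (ZMod 2)) :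
    kron (fun k => g k * g' k) = kron g * kron g' := by
  ext j j'
  change ∏ k, (g k * g' k) (j k) (j' k) = ∑ l : JJ t, (∏ k, g k (j k) (l k)) * ∏ k, g' k (l k) (j' k)
  simp only [Matrix.mul_apply, ← Finset.prod_mul_distrib]
  exact (sum_prod fun k m => g k (j k) m * g' k m (j' k)).symm

lemma kron_mulVec (g : Fin t → Matrix (Fin 3) (Fin 3) (ZMod 2)) (u : Fin t → Fin 3 → ZMod 2) :
    kron g *ᵥ tens u = tens fun k => g k *ᵥ u k := by
  ext j
  change ∑ l : JJ t, (∏ k, g k (j k) (l k)) * ∏ k, u k (l k) = ∏ k, ∑ m, g k (j k) m * u k m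
  simp only [← Finset.prod_mul_distrib]
  exact sum_prod fun k m => g k (j k) m * u k m

lemma vecMul_kron (g : Fin t → Matrix (Fin 3) (Fin 3) (ZMod 2)) (u : Fin t → Fin 3 → ZMod 2) :
    tens u ᵥ* kron g = tens fun k => u k ᵥ* g k := by
  ext j
  change ∑ l : JJ t, (∏ k, u k (l k)) * (∏ k, g k (l k) (j k)) = ∏ k, ∑ m, u k m * g k m (j k)
  simp only [← Finset.prod_mul_distrib]
  exact sum_prod fun k m => u k m * g k m (j k)

lemma tens_single (j : JJ t) : tens (fun k => Pi.single (j k) 1) = Pi.single j 1 := by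
  ext l
  change ∏ k, (Pi.single (j k) 1 : Fin 3 → ZMod 2) (l k) = _
  by_cases h : l = j
  · subst h
    simp
  · rw [Pi.single_eq_of_ne h]
    obtain ⟨k, hk⟩ := Function.ne_iff.mp h
    exact Finset.prod_eq_zero (Finset.mem_univ k) (Pi.single_eq_of_ne hk 1)

lemma tens_update_add (u : Fin t → Fin 3 → ZMod 2) (k : Fin t) (v w : Fin 3 → ZMod 2) :
    tens (Function.update u k (v + w)) = tens (Function.update u k v)
      + tens (Function.update u k w) := by
  ext j
  change ∏ l, Function.update u k (v + w) l (j l)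
    = ∏ l, Function.update u k v l (j l) + ∏ l, Function.update u k w l (j l)
  have h : ∀ z : Fin 3 → ZMod 2, ∏ l, Function.update u k z l (j l)
      = z (j k) * ∏ l ∈ Finset.univ.erase k, u l (j l) := by
    intro z
    rw [← Finset.mul_prod_erase _ _ (Finset.mem_univ k), Function.update_self]
    congr 1
    refine Finset.prod_congr rfl fun l hl => ?_
    rw [Function.update_of_ne (Finset.ne_of_mem_erase hl)]
  rw [h, h, h, Pi.add_apply, add_mul]

lemma tens_update_zero (u : Fin t → Fin 3 → ZMod 2) (k : Fin t) :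
    tens (Function.update u k 0) = 0 := by
  ext j
  exact Finset.prod_eq_zero (Finset.mem_univ k) (by rw [Function.update_self]; rfl)

end kron

section groups

variable {t : ℕ}

/-- Index set of the primes. -/
abbrev II (t : ℕ) : Type := Fin t → Bool

/-- `GL₃(𝔽₂)ᵗ`. -/
abbrev AA (t : ℕ) : Type := Fin t → GL3

/-- The Kronecker matrix of `g` twisted by `i`. -/
def KK (i : II t) (g : AA t) : Matrix (JJ t) (JJ t) (ZMod 2) :=
  kron fun k => (tw (i k) (g k) : Matrix (Fin 3) (Fin 3) (ZMod 2))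

lemma KK_one (i : II t) : KK i 1 = 1 := by
  unfold KK
  simp only [Pi.one_apply, map_one, Units.val_one]
  exact kron_one

lemma KK_mul (i : II t) (g h : AA t) : KK i (g * h) = KK i g * KK i h := by
  unfold KK
  rw [← kron_mul]
  congr 1
  funext k
  rw [Pi.mul_apply, map_mul, Units.val_mul]

variable (p : II t → ℕ)

/-- The elementary abelian `2`-group. -/
abbrev EE : Type := (i : II t) → ZMod (p i) → JJ t → ZMod 2

/-- The product of the cyclic groups of order `p i`. -/
abbrev CC : Type := (i : II t) → Multiplicative (ZMod (p i))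

/-- The group acting. -/
abbrev HH : Type := CC p × AA t

variable {p}

/-- the action -/
def hact (h : HH p) (e : EE p) : EE p := fun i x => KK i h.2 *ᵥ e i (x - (h.1 i).toAdd)

/-- The action of `HH p` on `EE p`. -/
instance hAction : DistribMulAction (HH p) (EE p) where
  smul := hact
  one_smul e := by
    funext i x
    change KK i 1 *ᵥ e i (x - 0) = e i x
    rw [KK_one, Matrix.one_mulVec, sub_zero]
  mul_smul a b e := by
    funext i x
    change KK i (a.2 * b.2) *ᵥ e i (x - ((a.1 i).toAdd + (b.1 i).toAdd))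
      = KK i a.2 *ᵥ (KK i b.2 *ᵥ e i (x - (a.1 i).toAdd - (b.1 i).toAdd))
    rw [KK_mul, Matrix.mulVec_mulVec, sub_sub]
  smul_zero a := by
    funext i x
    exact Matrix.mulVec_zero _
  smul_add a e e' := by
    funext i x
    exact Matrix.mulVec_add _ _ _

lemma hsmul_apply (h : HH p) (e : EE p) (i : II t) (x : ZMod (p i)) :
    (h • e) i x = KK i h.2 *ᵥ e i (x - (h.1 i).toAdd) := rfl

/-- The element of `EE p` supported at `(i, x)`. -/
def sgl (i : II t) (x : ZMod (p i)) (u : JJ t → ZMod 2) : EE p := Pi.single i (Pi.single x u)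

lemma sgl_add (i : II t) (x : ZMod (p i)) (u v : JJ t → ZMod 2) :
    (sgl i x (u + v) : EE p) = sgl i x u + sgl i x v := by
  unfold sgl
  rw [Pi.single_add, Pi.single_add]

lemma sgl_zero (i : II t) (x : ZMod (p i)) : (sgl i x 0 : EE p) = 0 := by
  unfold sgl
  rw [Pi.single_zero, Pi.single_zero]

lemma hsmul_sgl (h : HH p) (i : II t) (x : ZMod (p i)) (u : JJ t → ZMod 2) :
    h • (sgl i x u : EE p) = sgl i (x + (h.1 i).toAdd) (KK i h.2 *ᵥ u) := by
  funext i' y
  rw [hsmul_apply]
  by_cases hi : i' = i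
  · subst hi
    unfold sgl
    rw [Pi.single_eq_same, Pi.single_eq_same]
    by_cases hy : y = x + (h.1 i').toAdd
    · subst hy
      rw [add_sub_cancel_right, Pi.single_eq_same, Pi.single_eq_same]
    · rw [Pi.single_eq_of_ne hy, Pi.single_eq_of_ne (fun hc => hy (by rw [← hc, sub_add_cancel])),
        Matrix.mulVec_zero]
  · unfold sgl
    rw [Pi.single_eq_of_ne hi, Pi.single_eq_of_ne hi]
    exact Matrix.mulVec_zero _

/-- The `k`-th factor of `GL₃(𝔽₂)ᵗ`. -/
def FF (p : II t → ℕ) (k : Fin t) : GL3 →* HH p :=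
  (MonoidHom.inr (CC p) (AA t)).comp (MonoidHom.mulSingle (fun _ : Fin t => GL3) k)

lemma FF_normal (k : Fin t) : (FF p k).range.Normal := by
  constructor
  rintro _ ⟨s, rfl⟩ g
  refine ⟨g.2 k * s * (g.2 k)⁻¹, ?_⟩
  refine Prod.ext ?_ ?_
  · change (1 : CC p) = g.1 * 1 * g.1⁻¹
    simp
  · change Pi.mulSingle k (g.2 k * s * (g.2 k)⁻¹) = g.2 * Pi.mulSingle k s * (g.2)⁻¹
    funext l
    by_cases hl : l = k
    · subst hl
      simp
    · simp [Pi.mulSingle_eq_of_ne hl]

lemma KK_FF (i : II t) (k : Fin t) (s : GL3) (u : Fin t → Fin 3 → ZMod 2) (v : Fin 3 → ZMod 2) :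
    KK i (FF p k s).2 *ᵥ tens (Function.update u k v)
      = tens (Function.update u k ((tw (i k) s : Matrix (Fin 3) (Fin 3) (ZMod 2)) *ᵥ v)) := by
  unfold KK
  rw [kron_mulVec]
  congr 1
  funext l
  change (tw (i l) ((Pi.mulSingle k s : AA t) l) : Matrix (Fin 3) (Fin 3) (ZMod 2)) *ᵥ _ = _
  by_cases hl : l = k
  · subst hl
    simp
  · rw [Pi.mulSingle_eq_of_ne hl, map_one, Units.val_one, Matrix.one_mulVec,
      Function.update_of_ne hl, Function.update_of_ne hl]

end groups

end Pool.Agent.R403.RS
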