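import Pool.Agent.R403.RS.Clifford

/-!
# The monomial representation attached to an orbit of characters
-/

open scoped BigOperators
open Representation

noncomputable section

namespace Pool.Agent.R403.RS

attribute [local instance] dualAction

variable {E H : Type} [AddCommGroup E] [Group H] [DistribMulAction H E]

/-- The orbit of `ψ`. -/
abbrev Orb (ψ : AddChar E ℂ) : Type := MulAction.orbit H ψ

lemma orb_smul (ψ : AddChar E ℂ) (h : H) (μ : Orb (H := H) ψ) (e : E) :
    (h • μ).1 e = μ.1 (h⁻¹ • e) := rfl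

/-- The representation of `E ⋊ H` on the functions on the orbit of `ψ`. -/
def mono (ψ : AddChar E ℂ) : Representation ℂ (GG E H) (Orb (H := H) ψ → ℂ) where
  toFun g :=
    { toFun := fun f μ => μ.1 g.left.toAdd * f (g.right⁻¹ • μ)
      map_add' := by intro a b; ext μ; simp [mul_add]
      map_smul' := by intro a b; ext μ; simp [mul_left_comm] }
  map_one' := by
    ext f μ
    simp
  map_mul' a b := by
    refine LinearMap.ext fun f => funext fun μ => ?_
    change μ.1 (a * b).left.toAdd * f ((a * b).right⁻¹ • μ)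
      = μ.1 a.left.toAdd * ((a.right⁻¹ • μ).1 b.left.toAdd * f (b.right⁻¹ • a.right⁻¹ • μ))
    have h1 : (a * b).left.toAdd = a.left.toAdd + a.right • b.left.toAdd := rfl
    rw [h1, AddChar.map_add_eq_mul, orb_smul, inv_inv, SemidirectProduct.mul_right, mul_inv_rev,
      mul_smul, mul_assoc]

lemma mono_inE (ψ : AddChar E ℂ) (e : E) (f : Orb (H := H) ψ → ℂ) (μ : Orb (H := H) ψ) :
    mono ψ (inE e) f μ = μ.1 e * f μ := by
  change μ.1 e * f ((1 : H)⁻¹ • μ) = _
  rw [inv_one, one_smul]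

lemma mono_inH (ψ : AddChar E ℂ) (h : H) (f : Orb (H := H) ψ → ℂ) (μ : Orb (H := H) ψ) :
    mono ψ (inH h) f μ = f (h⁻¹ • μ) := by
  change μ.1 0 * f (h⁻¹ • μ) = _
  rw [AddChar.map_zero_eq_one, one_mul]

variable [Finite E] [Finite H]

instance (ψ : AddChar E ℂ) : Finite (Orb (H := H) ψ) := by
  unfold Orb
  infer_instance

instance (ψ : AddChar E ℂ) : Nonempty (Orb (H := H) ψ) :=
  ⟨⟨ψ, MulAction.mem_orbit_self ψ⟩⟩

theorem mono_irr (ψ : AddChar E ℂ) : (mono (H := H) ψ).IsIrreducible := by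
  classical
  haveI := Fintype.ofFinite E
  haveI := Fintype.ofFinite (Orb (H := H) ψ)
  refine isIrreducible_of _ ?_
  intro W hW hne
  obtain ⟨f, hf, hf0⟩ := Submodule.exists_mem_ne_zero_of_ne_bot hne
  obtain ⟨μ₀, hμ₀⟩ : ∃ μ, f μ ≠ 0 := by
    by_contra hc
    push Not at hc
    exact hf0 (funext hc)
  have h1 : ∑ e : E, μ₀.1 (-e) • mono ψ (inE e) f
      = ((Fintype.card E : ℂ) * f μ₀) • (Pi.single μ₀ 1 : Orb (H := H) ψ → ℂ) := by
    ext μ
    rw [Finset.sum_apply]
    simp only [Pi.smul_apply, mono_inE, smul_eq_mul]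
    by_cases hμ : μ = μ₀
    · subst hμ
      have h2 : ∀ e : E, μ.1 (-e) * (μ.1 e * f μ) = f μ := by
        intro e
        rw [← mul_assoc, ← AddChar.map_add_eq_mul, neg_add_cancel, AddChar.map_zero_eq_one,
          one_mul]
      simp only [h2]
      simp
    · rw [Pi.single_eq_of_ne hμ, mul_zero]
      have h2 : ∀ e : E, μ₀.1 (-e) * (μ.1 e * f μ) = (μ₀.1⁻¹ * μ.1) e * f μ := by
        intro e
        rw [← mul_assoc, AddChar.mul_apply, AddChar.inv_apply]
      simp only [h2]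
      rw [← Finset.sum_mul, AddChar.sum_eq_ite, if_neg, zero_mul]
      intro h3
      apply hμ
      apply Subtype.ext
      have h4 : μ₀.1⁻¹ * μ.1 = 1 := h3
      exact (inv_mul_eq_one.mp h4).symm
  have h2 : (Pi.single μ₀ 1 : Orb (H := H) ψ → ℂ) ∈ W := by
    have h3 : ((Fintype.card E : ℂ) * f μ₀) • (Pi.single μ₀ 1 : Orb (H := H) ψ → ℂ) ∈ W := by
      rw [← h1]
      exact W.sum_mem fun e _ => W.smul_mem _ (hW _ _ hf)
    have h4 : (Fintype.card E : ℂ) * f μ₀ ≠ 0 := mul_ne_zero cardE_ne hμ₀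
    exact (W.smul_mem_iff h4).mp h3
  have h3 : ∀ μ : Orb (H := H) ψ, (Pi.single μ 1 : Orb (H := H) ψ → ℂ) ∈ W := by
    intro μ
    obtain ⟨h, rfl⟩ : ∃ h : H, h • μ₀ = μ := MulAction.exists_smul_eq H μ₀ μ
    have h4 : mono ψ (inH h) (Pi.single μ₀ 1) = (Pi.single (h • μ₀) 1 : Orb (H := H) ψ → ℂ) := by
      ext μ
      rw [mono_inH, Pi.single_apply, Pi.single_apply]
      simp only [inv_smul_eq_iff]
    rw [← h4]
    exact hW _ _ h2
  rw [eq_top_iff]
  intro f' _
  have h4 : f' = ∑ μ, f' μ • (Pi.single μ 1 : Orb (H := H) ψ → ℂ) := by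
    ext μ
    simp [Finset.sum_apply, Pi.single_apply]
  rw [h4]
  exact W.sum_mem fun μ _ => W.smul_mem _ (h3 μ)

lemma finrank_mono (ψ : AddChar E ℂ) :
    Module.finrank ℂ (Orb (H := H) ψ → ℂ) = (stab (H := H) ψ).index := by
  haveI := Fintype.ofFinite (Orb (H := H) ψ)
  rw [Module.finrank_fintype_fun_eq_card]
  unfold stab
  rw [MulAction.index_stabilizer, ← Nat.card_eq_fintype_card]
  exact Nat.card_coe_set_eq _

end Pool.Agent.R403.RS
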