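import Pool.Agent.R403.RS.Groups

/-!
# Irreducible degrees of `E ⋊ H` coprime to `6`
-/

open scoped BigOperators Matrix
open Representation

noncomputable section

namespace Pool.Agent.R403.RS

attribute [local instance] dualAction

variable {t : ℕ} {p : II t → ℕ}

/-- restriction of a character to the block `(i, x)` -/
def resChar (ψ : AddChar (EE p) ℂ) (i : II t) (x : ZMod (p i)) : AddChar (JJ t → ZMod 2) ℂ where
  toFun u := ψ (sgl i x u)
  map_zero_eq_one' := by rw [sgl_zero, AddChar.map_zero_eq_one]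
  map_add_eq_mul' u v := by rw [sgl_add, AddChar.map_add_eq_mul]

lemma exists_single (ψ : AddChar (EE p) ℂ) (i : II t) (x : ZMod (p i)) (u : JJ t → ZMod 2)
    (hu : ψ (sgl i x u) ≠ 1) : ∃ j : JJ t, ψ (sgl i x (Pi.single j 1)) ≠ 1 := by
  by_contra hc
  push Not at hc
  apply hu
  obtain ⟨y, hy⟩ := exists_covector (resChar ψ i x)
  have h1 : y = 0 := by
    funext j
    have h2 : resChar ψ i x (Pi.single j 1) = 1 := hc j
    rw [hy, ← chi2_zero] at h2
    have h3 := chi2_inj h2
    simpa using h3
  have h4 : ψ (sgl i x u) = resChar ψ i x u := rfl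
  rw [h4, hy, h1, zero_dotProduct, chi2_zero]

lemma local_char (ψ : AddChar (EE p) ℂ) (i : II t) (x : ZMod (p i)) (u : JJ t → ZMod 2)
    (hu : ψ (sgl i x u) ≠ 1) (k : Fin t) :
    ∃ χ : AddChar (Fin 3 → ZMod 2) ℂ, (∃ v, χ v ≠ 1) ∧
      ∀ s ∈ (stab (H := HH p) ψ).comap (FF p k), ∀ v,
        χ ((tw (i k) s : Matrix (Fin 3) (Fin 3) (ZMod 2)) *ᵥ v) = χ v := by
  obtain ⟨j, hj⟩ := exists_single ψ i x u hu
  let χ : AddChar (Fin 3 → ZMod 2) ℂ :=
    { toFun := fun v => ψ (sgl i x (tens (Function.update (fun l => Pi.single (j l) 1) k v)))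
      map_zero_eq_one' := by rw [tens_update_zero, sgl_zero, AddChar.map_zero_eq_one]
      map_add_eq_mul' := fun v w => by
        rw [tens_update_add, sgl_add, AddChar.map_add_eq_mul] }
  refine ⟨χ, ⟨Pi.single (j k) 1, ?_⟩, ?_⟩
  · change ψ (sgl i x (tens (Function.update (fun l => Pi.single (j l) 1) k
      (Pi.single (j k) 1)))) ≠ 1
    rw [Function.update_eq_self k (fun l => (Pi.single (j l) 1 : Fin 3 → ZMod 2)), tens_single]
    exact hj
  · intro s hs v
    have h1 := mem_stab.mp (Subgroup.mem_comap.mp hs)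
      (sgl i x (tens (Function.update (fun l => Pi.single (j l) 1) k v)))
    rw [hsmul_sgl, KK_FF] at h1
    have h2 : x + Multiplicative.toAdd ((FF p k s).1 i) = x := add_zero x
    rw [h2] at h1
    exact h1

variable [∀ i, NeZero (p i)]

instance finite_GG (E H : Type) [AddCommGroup E] [Group H] [DistribMulAction H E] [Finite E]
    [Finite H] : Finite (GG E H) :=
  Finite.of_equiv _ SemidirectProduct.equivProd.symm

instance finite_CC : Finite (CC p) := by
  haveI : ∀ i, Finite (Multiplicative (ZMod (p i))) := fun i =>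
    inferInstanceAs (Finite (ZMod (p i)))
  infer_instance

section rep

variable {V : Type} [AddCommGroup V] [Module ℂ V] [FiniteDimensional ℂ V]
  (ρ : Representation ℂ (GG (EE p) (HH p)) V)

/-- A weight of an irreducible representation of degree coprime to `6` is nontrivial on at most
one block. -/
theorem one_block (hirr : ρ.IsIrreducible) (hn : Nat.Coprime (Module.finrank ℂ V) 6)
    (ψ : AddChar (EE p) ℂ) (hψ : P ρ ψ ≠ 0) {i j : II t} (hij : i ≠ j)
    {x : ZMod (p i)} {u : JJ t → ZMod 2} (hu : ψ (sgl i x u) ≠ 1)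
    {y : ZMod (p j)} {w : JJ t → ZMod 2} (hw : ψ (sgl j y w) ≠ 1) : False := by
  obtain ⟨k, hk⟩ := Function.ne_iff.mp hij
  have h1 := index_dvd ρ hirr ψ hψ
  have h2 : ((stab (H := HH p) ψ).comap (FF p k)).index ∣ Module.finrank ℂ V :=
    (comap_index_dvd _ (FF_normal k) _).trans h1
  have h3 : Nat.Coprime ((stab (H := HH p) ψ).comap (FF p k)).index 6 :=
    Nat.Coprime.coprime_dvd_left h2 hn
  obtain ⟨χ, hχ, hχ'⟩ := local_char ψ i x u hu k
  obtain ⟨χ₁, hχ₁, hχ₁'⟩ := local_char ψ j y w hw k
  cases hik : i k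
  · have hjk : j k = true := by
      cases hjk : j k
      · exact absurd (hik.trans hjk.symm) hk
      · rfl
    rw [hik] at hχ'
    rw [hjk] at hχ₁'
    exact not_coprime _ χ χ₁ hχ hχ₁ hχ' hχ₁' h3
  · have hjk : j k = false := by
      cases hjk : j k
      · rfl
      · exact absurd (hik.trans hjk.symm) hk
    rw [hik] at hχ'
    rw [hjk] at hχ₁'
    exact not_coprime _ χ₁ χ hχ₁ hχ hχ₁' hχ' h3

/-- If a weight is trivial on a block then the block acts trivially. -/
theorem block_trivial (hirr : ρ.IsIrreducible) (ψ : AddChar (EE p) ℂ) (hψ : P ρ ψ ≠ 0)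
    {i : II t} (h : ∀ x u, ψ (sgl i x u) = 1) (x : ZMod (p i)) (u : JJ t → ZMod 2) :
    ρ (inE (sgl i x u)) = 1 := by
  refine trivial_of_weight ρ hirr ψ hψ _ fun g => ?_
  rw [hsmul_sgl]
  exact h _ _

/-- The projection to the cyclic group of order `p i`. -/
def prC (p : II t → ℕ) (i : II t) : GG (EE p) (HH p) →* Multiplicative (ZMod (p i)) :=
  (Pi.evalMonoidHom (fun i => Multiplicative (ZMod (p i))) i).comp
    ((MonoidHom.fst (CC p) (AA t)).comp SemidirectProduct.rightHom)

/-- the generator of the `i`-th cyclic group -/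
def zc (i : II t) (c : Multiplicative (ZMod (p i))) : HH p := (Pi.mulSingle i c, 1)

lemma prC_inE (i : II t) (e : EE p) : prC p i (inE e) = 1 := rfl

lemma prC_inH (i : II t) (h : HH p) : prC p i (inH h) = h.1 i := rfl

lemma prC_surj (i : II t) : Function.Surjective (prC p i) := by
  intro c
  refine ⟨inH (zc i c), ?_⟩
  rw [prC_inH]
  change (Pi.mulSingle i c : CC p) i = c
  rw [Pi.mulSingle_eq_same]

lemma zc_smul (i : II t) (c : Multiplicative (ZMod (p i))) (e : EE p) :
    ∃ d : ZMod (p i) → JJ t → ZMod 2, zc i c • e = e + Pi.single i d := by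
  refine ⟨(zc i c • e) i - e i, ?_⟩
  funext i'
  by_cases hi : i' = i
  · subst hi
    rw [Pi.add_apply, Pi.single_eq_same]
    abel
  · rw [Pi.add_apply, Pi.single_eq_of_ne hi, add_zero]
    funext x
    rw [hsmul_apply]
    change KK i' 1 *ᵥ e i' (x - ((Pi.mulSingle i c : CC p) i').toAdd) = _
    rw [Pi.mulSingle_eq_of_ne hi, KK_one, Matrix.one_mulVec]
    change e i' (x - 0) = _
    rw [sub_zero]

lemma inE_sum {κ : Type} (s : Finset κ) (f : κ → EE p) (hf : ∀ a, ρ (inE (f a)) = 1) :
    ρ (inE (∑ a ∈ s, f a)) = 1 := by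
  classical
  induction s using Finset.induction_on with
  | empty => rw [Finset.sum_empty, inE_zero, map_one]
  | insert a s ha ih => rw [Finset.sum_insert ha, inE_add, map_mul, hf, ih, one_mul]

/-- If the block `i` acts trivially then `p i` does not divide the degree, provided `p i` is prime
and divides the order of the group exactly once. -/
theorem not_dvd (hirr : ρ.IsIrreducible) {i : II t}
    (h : ∀ (x : ZMod (p i)) (u : JJ t → ZMod 2), ρ (inE (sgl i x u)) = 1) :
    Module.finrank ℂ V * p i ∣ Nat.card (GG (EE p) (HH p)) := by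
  classical
  haveI := irr_nontrivial ρ hirr
  have hblock : ∀ d : ZMod (p i) → JJ t → ZMod 2, ρ (inE (Pi.single i d : EE p)) = 1 := by
    intro d
    have h1 : (Pi.single i d : EE p) = ∑ x : ZMod (p i), sgl i x (d x) := by
      funext i'
      rw [Finset.sum_apply]
      by_cases hi : i' = i
      · subst hi
        rw [Pi.single_eq_same]
        unfold sgl
        simp only [Pi.single_eq_same]
        exact (Finset.univ_sum_single d).symm
      · rw [Pi.single_eq_of_ne hi]
        unfold sgl
        simp only [Pi.single_eq_of_ne hi]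
        simp
    rw [h1]
    exact inE_sum ρ _ _ fun x => h x (d x)
  have hz : ∀ c : Multiplicative (ZMod (p i)), ∃ a : ℂ,
      ρ (inH (zc i c)) = a • LinearMap.id := by
    intro c
    refine schur ρ hirr _ ?_
    intro g v
    obtain ⟨e, k, rfl⟩ := exists_eq g
    have h1 : ρ (inH (zc i c)) * ρ (inE e) = ρ (inE e) * ρ (inH (zc i c)) := by
      rw [← map_mul, inH_inE]
      obtain ⟨d, hd⟩ := zc_smul i c e
      rw [hd, inE_add, map_mul, map_mul, hblock, mul_one]
    have h2 : ρ (inH (zc i c)) * ρ (inH k) = ρ (inH k) * ρ (inH (zc i c)) := by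
      rw [← map_mul, ← map_mul, ← inH_mul, ← inH_mul]
      congr 2
      refine Prod.ext ?_ ?_
      · exact mul_comm _ _
      · change (1 : AA t) * k.2 = k.2 * 1
        rw [one_mul, mul_one]
    have h3 : ρ (inH (zc i c)) * ρ (inE e * inH k) = ρ (inE e * inH k) * ρ (inH (zc i c)) := by
      rw [map_mul, ← mul_assoc, h1, mul_assoc, h2, mul_assoc]
    exact congrArg (fun S : Module.End ℂ V => S v) h3
  let N : Subgroup (GG (EE p) (HH p)) := (prC p i).ker
  let ρN : Representation ℂ N V := ρ.comp N.subtype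
  have hN : ρN.IsIrreducible := by
    refine isIrreducible_of ρN ?_
    intro W hW hW0
    refine eq_top_of ρ hirr W ?_ hW0
    intro g v hv
    set c := prC p i g with hc
    obtain ⟨a, ha⟩ := hz c
    have hmem : g * (inH (zc i c))⁻¹ ∈ N := by
      rw [MonoidHom.mem_ker, map_mul, map_inv, prC_inH, ← hc]
      change c * ((Pi.mulSingle i c : CC p) i)⁻¹ = 1
      rw [Pi.mulSingle_eq_same, mul_inv_cancel]
    have h1 : ρ g v = ρN ⟨g * (inH (zc i c))⁻¹, hmem⟩ (a • v) := by
      change _ = ρ (g * (inH (zc i c))⁻¹) (a • v)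
      have h2 : a • v = ρ (inH (zc i c)) v := by rw [ha]; rfl
      rw [h2, ← Module.End.mul_apply, ← map_mul, inv_mul_cancel_right]
    rw [h1]
    exact hW _ _ (W.smul_mem _ hv)
  have h1 := frob_dvd ρN hN
  have h2 : Nat.card N * N.index = Nat.card (GG (EE p) (HH p)) := N.card_mul_index
  have h3 : N.index = p i := by
    rw [Subgroup.index_ker, MonoidHom.range_eq_top.mpr (prC_surj i), Subgroup.card_top]
    change Nat.card (ZMod (p i)) = p i
    exact Nat.card_zmod _
  rw [← h2, h3]
  exact Nat.mul_dvd_mul_right h1 _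

end rep

end Pool.Agent.R403.RS
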